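import Pool.Agent.W6h19.Kk.Core

set_option autoImplicit false

/-!
# Null cones and null sets of the sphere
-/

open MeasureTheory Set Metric Filter Topology Module Measure
open scoped NNReal ENNReal

namespace Pool.Agent.W6h19.Kk

variable {E : Type*} [NormedAddCommGroup E] [NormedSpace ℝ E] [FiniteDimensional ℝ E]
  [MeasurableSpace E] [BorelSpace E]

/-- The part `1 < |z| < 2` of the cone over a set of unit vectors. -/
def cone (T : Set (sphere (0 : E) 1)) : Set E :=
  {z | ∃ e ∈ T, ∃ r : ℝ, 1 < r ∧ r < 2 ∧ z = r • (e : E)}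

theorem volumeIoiPow_pos (n : ℕ) :
    volumeIoiPow n {r : Ioi (0 : ℝ) | 1 < (r : ℝ) ∧ (r : ℝ) < 2} ≠ 0 := by
  intro h0
  have h1 : volumeIoiPow n (Iio ⟨2, by norm_num⟩) ≤ volumeIoiPow n (Iio ⟨3 / 2, by norm_num⟩) := by
    have hsub : Iio (⟨2, by norm_num⟩ : Ioi (0 : ℝ)) ⊆
        Iio (⟨3 / 2, by norm_num⟩ : Ioi (0 : ℝ)) ∪ {r | 1 < (r : ℝ) ∧ (r : ℝ) < 2} := by
      intro r hr
      have hr' : (r : ℝ) < 2 := hr
      by_cases h : (r : ℝ) < 3 / 2
      · exact Or.inl h
      · exact Or.inr ⟨by linarith, hr'⟩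
    calc _ ≤ _ := measure_mono hsub
      _ ≤ _ := measure_union_le _ _
      _ = _ := by rw [h0, add_zero]
  rw [volumeIoiPow_apply_Iio, volumeIoiPow_apply_Iio] at h1
  have h2 := (ENNReal.ofReal_le_ofReal_iff (by positivity)).1 h1
  simp only at h2
  rw [div_le_div_iff_of_pos_right (by positivity)] at h2
  have h3 : (3 / 2 : ℝ) ^ (n + 1) < 2 ^ (n + 1) := by
    gcongr
    norm_num
  linarith

theorem sphere_null_of_cone (μ : Measure E) [μ.IsAddHaarMeasure] (T : Set (sphere (0 : E) 1))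
    (h : μ (cone T) = 0) : μ.toSphere T = 0 := by
  classical
  set N := toMeasurable μ (cone T) with hN
  have hNm : MeasurableSet N := measurableSet_toMeasurable μ _
  have hN0 : μ N = 0 := by rw [hN, measure_toMeasurable, h]
  have hCN : cone T ⊆ N := subset_toMeasurable μ _
  set N' : Set (sphere (0 : E) 1 × Ioi (0 : ℝ)) := {p | (p.2 : ℝ) • (p.1 : E) ∈ N} with hN'
  have hcont : Continuous (fun p : sphere (0 : E) 1 × Ioi (0 : ℝ) => (p.2 : ℝ) • (p.1 : E)) :=
    (continuous_subtype_val.comp continuous_snd).smul (continuous_subtype_val.comp continuous_fst)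
  have hN'm : MeasurableSet N' := hcont.measurable hNm
  have hpre : (homeomorphUnitSphereProd E) ⁻¹' N' = Subtype.val ⁻¹' N := by
    ext z
    simp only [hN', mem_preimage, mem_setOf_eq]
    have : ((homeomorphUnitSphereProd E z).2 : ℝ) • ((homeomorphUnitSphereProd E z).1 : E) = z := by
      have hz : ‖(z : E)‖ ≠ 0 := norm_ne_zero_iff.2 z.2
      simp only [homeomorphUnitSphereProd_apply_fst_coe, homeomorphUnitSphereProd_apply_snd_coe]
      rw [smul_smul, mul_inv_cancel₀ hz, one_smul]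
    rw [this]
  have h0 : (μ.toSphere.prod (volumeIoiPow (finrank ℝ E - 1))) N' = 0 := by
    rw [← (μ.measurePreserving_homeomorphUnitSphereProd).measure_preimage hN'm.nullMeasurableSet,
      hpre, comap_subtype_coe_apply (measurableSet_singleton _).compl]
    refine measure_mono_null ?_ hN0
    rintro _ ⟨z, hz, rfl⟩
    exact hz
  rw [Measure.prod_apply_symm hN'm] at h0
  rw [lintegral_eq_zero_iff (measurable_measure_prodMk_right hN'm)] at h0
  have hex : ∃ r : Ioi (0 : ℝ), (1 < (r : ℝ) ∧ (r : ℝ) < 2) ∧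
      μ.toSphere ((fun e => (e, r)) ⁻¹' N') = 0 := by
    by_contra hcon
    push Not at hcon
    refine volumeIoiPow_pos (finrank ℝ E - 1) (measure_mono_null ?_ h0)
    intro r hr
    exact hcon r hr
  obtain ⟨r, hr, hr0⟩ := hex
  refine measure_mono_null ?_ hr0
  intro e he
  exact hCN ⟨e, he, r, hr.1, hr.2, rfl⟩

end Pool.Agent.W6h19.Kk
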