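import Pool.Agent.W769.Cons.Meas

set_option autoImplicit false

/-!
# Rectifiable families of lines

If `V`, `X` are Lipschitz on `s` and `V '' s` is not null, then `(X + t V) '' s` is not null for all
but at most `dim E` values of `t`; and for a null set `K` the set of all `V z`, `z ∈ s`, such that the
line `X z + ℝ V z` meets `K` in positive length is null.
-/

open MeasureTheory Set Metric Filter Topology Module
open scoped NNReal ENNReal

namespace Pool.Agent.W6h19.Kk

variable {E : Type*} [NormedAddCommGroup E] [NormedSpace ℝ E] [FiniteDimensional ℝ E]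
  [MeasurableSpace E] [BorelSpace E]

omit [MeasurableSpace E] [BorelSpace E] in
/-- The determinant of `A + t B` vanishes for at most `dim E` values of `t`, if `det B ≠ 0`. -/
theorem det_pencil_top (A B : E →L[ℝ] E) (T : Finset ℝ) (hT : finrank ℝ E < T.card)
    (h : ∀ t ∈ T, (A + t • B).det = 0) : B.det = 0 := by
  classical
  set bs := Module.finBasis ℝ E
  set MA := LinearMap.toMatrix bs bs (A : E →ₗ[ℝ] E) with hMA
  set MB := LinearMap.toMatrix bs bs (B : E →ₗ[ℝ] E) with hMB
  set p : Polynomial ℝ := Matrix.det ((Polynomial.X : Polynomial ℝ) • MB.map Polynomial.C +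
    MA.map Polynomial.C) with hp
  have heval : ∀ t : ℝ, p.eval t = (A + t • B).det := by
    intro t
    have h1 : (A + t • B).det
        = Matrix.det (LinearMap.toMatrix bs bs ((A + t • B : E →L[ℝ] E) : E →ₗ[ℝ] E)) := by
      rw [LinearMap.det_toMatrix]
    have h2 : LinearMap.toMatrix bs bs ((A + t • B : E →L[ℝ] E) : E →ₗ[ℝ] E)
        = MA + t • MB := by
      rw [ContinuousLinearMap.toLinearMap_add, ContinuousLinearMap.toLinearMap_smul, map_add,
        map_smul]
    rw [h1, h2, hp, ← Polynomial.coe_evalRingHom, RingHom.map_det]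
    congr 1
    ext i j
    simp [Matrix.add_apply, Matrix.smul_apply]
    try ring
  have hp0 : p = 0 := by
    refine Polynomial.eq_zero_of_natDegree_lt_card_of_eval_eq_zero' p T
      (fun t ht => by rw [heval, h t ht]) ?_
    refine lt_of_le_of_lt (Polynomial.natDegree_det_X_add_C_le _ _) ?_
    rwa [Fintype.card_fin]
  have h3 := Polynomial.coeff_det_X_add_C_card MB MA
  rw [← hp, hp0, Polynomial.coeff_zero] at h3
  have h4 : B.det = MB.det := by
    rw [hMB, LinearMap.det_toMatrix]
  rw [h4, ← h3]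

theorem null_lipschitz_image (μ : Measure E) [μ.IsAddHaarMeasure] {f : E → E} {K : ℝ≥0}
    {s : Set E} (hf : LipschitzOnWith K f s) (hs : μ s = 0) : μ (f '' s) = 0 := by
  have h1 : (μH[finrank ℝ E] : Measure E) s = 0 :=
    (Measure.absolutelyContinuous_isAddHaarMeasure (μH[finrank ℝ E] : Measure E) μ) hs
  have h2 : (μH[finrank ℝ E] : Measure E) (f '' s) = 0 := by
    have := hf.hausdorffMeasure_image_le (d := finrank ℝ E) (by positivity)
    rw [h1, mul_zero] at this
    exact nonpos_iff_eq_zero.1 this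
  exact (Measure.absolutelyContinuous_isAddHaarMeasure μ (μH[finrank ℝ E] : Measure E)) h2

omit [MeasurableSpace E] [BorelSpace E] in
theorem finite_det_pencil (A B : E →L[ℝ] E) (hB : B.det ≠ 0) :
    {t : ℝ | (A + t • B).det = 0}.Finite := by
  by_contra hinf
  obtain ⟨T, hT, hcard⟩ := (Set.Infinite.exists_subset_card_eq hinf (finrank ℝ E + 1))
  exact hB (det_pencil_top A B T (by omega) (fun t ht => hT ht))

/-- For maps defined on the whole space. -/
theorem encard_slices_le (μ : Measure E) [μ.IsAddHaarMeasure] {X V : E → E} {kX kV : ℝ≥0}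
    (hX : LipschitzWith kX X) (hV : LipschitzWith kV V) {s : Set E} (hs : μ (V '' s) ≠ 0) :
    {t : ℝ | μ ((fun z => X z + t • V z) '' s) = 0}.encard ≤ finrank ℝ E := by
  by_contra hcon
  rw [not_le] at hcon
  have h1 : ((finrank ℝ E + 1 : ℕ) : ℕ∞) ≤
      {t : ℝ | μ ((fun z => X z + t • V z) '' s) = 0}.encard := by
    have := Order.add_one_le_of_lt hcon
    simpa using this
  obtain ⟨T, hTsub, hTcard⟩ := Set.exists_subset_encard_eq h1
  have hTfin : T.Finite := Set.finite_of_encard_eq_coe hTcard
  have hT : finrank ℝ E < hTfin.toFinset.card := by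
    have : hTfin.toFinset.card = finrank ℝ E + 1 := by
      have h2 := hTfin.encard_eq_coe_toFinset_card
      rw [hTcard] at h2
      exact_mod_cast h2.symm
    omega
  have hTnull : ∀ t ∈ hTfin.toFinset, μ ((fun z => X z + t • V z) '' s) = 0 :=
    fun t ht => hTsub (hTfin.mem_toFinset.1 ht)
  classical
  set D : Set E := {z | DifferentiableAt ℝ X z ∧ DifferentiableAt ℝ V z} with hD
  have hDae : μ Dᶜ = 0 := by
    have h1 := hX.ae_differentiableAt (μ := μ)
    have h2 := hV.ae_differentiableAt (μ := μ)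
    exact (h1.and h2 : ∀ᵐ z ∂μ, DifferentiableAt ℝ X z ∧ DifferentiableAt ℝ V z)
  set F' : ℝ → E → E →L[ℝ] E := fun t z => fderiv ℝ X z + t • fderiv ℝ V z with hF'
  set S : ℝ → Set E := fun t => {z ∈ s ∩ D | (F' t z).det ≠ 0} with hS
  have hSnull : ∀ t ∈ hTfin.toFinset, μ (S t) = 0 := by
    intro t ht
    refine Pool.Agent.W769.Cons.null_of_null_image μ (f := fun z => X z + t • V z) (f' := F' t)
      ?_ ?_ (fun x hx => hx.2)
    · rintro x ⟨⟨-, hxD⟩, -⟩
      have h1 := hxD.1.hasFDerivAt.add (hxD.2.hasFDerivAt.const_smul t)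
      exact h1.hasFDerivWithinAt
    · refine measure_mono_null (image_mono ?_) (hTnull t ht)
      rintro x ⟨⟨hx, -⟩, -⟩
      exact hx
  have hN : μ (Dᶜ ∪ ⋃ t ∈ hTfin.toFinset, S t) = 0 := by
    refine measure_union_null hDae ?_
    exact (measure_biUnion_null_iff hTfin.toFinset.countable_toSet).2 hSnull
  set N := Dᶜ ∪ ⋃ t ∈ hTfin.toFinset, S t with hNdef
  have hsplit : V '' s ⊆ V '' N ∪ V '' (s \ N) := by
    rw [← image_union]
    refine image_mono ?_
    intro z hz
    by_cases h : z ∈ N
    · exact Or.inl h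
    · exact Or.inr ⟨hz, h⟩
  have hVN : μ (V '' N) = 0 := by
    exact null_lipschitz_image μ hV.lipschitzOnWith hN
  have hVs : μ (V '' (s \ N)) = 0 := by
    refine addHaar_image_eq_zero_of_det_fderivWithin_eq_zero μ (f' := fun z => fderiv ℝ V z)
      ?_ ?_
    · rintro z ⟨hz, hzN⟩
      have hzD : z ∈ D := by
        by_contra h
        exact hzN (Or.inl h)
      exact hzD.2.hasFDerivAt.hasFDerivWithinAt
    · rintro z ⟨hz, hzN⟩
      simp only [hNdef, mem_union, mem_compl_iff, not_or, not_not, mem_iUnion, not_exists] at hzN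
      refine det_pencil_top (fderiv ℝ X z) (fderiv ℝ V z) hTfin.toFinset hT ?_
      intro t ht
      by_contra h
      exact hzN.2 t ht ⟨⟨hz, hzN.1⟩, h⟩
  exact hs (measure_mono_null hsplit (measure_union_null hVN hVs))

/-- For maps defined on the whole space: the directions `V z` of the lines `X z + ℝ V z` which
meet a null set `K` in positive length form a null set. -/
theorem null_lines (μ : Measure E) [μ.IsAddHaarMeasure] {X V : E → E} {kX kV : ℝ≥0}
    (hX : LipschitzWith kX X) (hV : LipschitzWith kV V) {K : Set E} (hK : μ K = 0) :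
    μ (V '' {z | volume {t : ℝ | X z + t • V z ∈ K} ≠ 0}) = 0 := by
  classical
  set K' := toMeasurable μ K with hK'
  have hK'm : MeasurableSet K' := measurableSet_toMeasurable μ K
  have hK'0 : μ K' = 0 := by rw [hK', measure_toMeasurable, hK]
  have hKK' : K ⊆ K' := subset_toMeasurable μ K
  set D : Set E := {z | DifferentiableAt ℝ X z ∧ DifferentiableAt ℝ V z} with hD
  have hDm : MeasurableSet D :=
    (measurableSet_of_differentiableAt ℝ X).inter (measurableSet_of_differentiableAt ℝ V)
  have hDae : μ Dᶜ = 0 := by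
    have h1 := hX.ae_differentiableAt (μ := μ)
    have h2 := hV.ae_differentiableAt (μ := μ)
    exact (h1.and h2 : ∀ᵐ z ∂μ, DifferentiableAt ℝ X z ∧ DifferentiableAt ℝ V z)
  set F' : E → ℝ → E →L[ℝ] E := fun z t => fderiv ℝ X z + t • fderiv ℝ V z with hF'
  set W : Set (E × ℝ) := {p | p.1 ∈ D ∧ X p.1 + p.2 • V p.1 ∈ K' ∧ (F' p.1 p.2).det ≠ 0} with hW
  have hcont : Continuous (fun p : E × ℝ => X p.1 + p.2 • V p.1) :=
    (hX.continuous.comp continuous_fst).add
      (continuous_snd.smul (hV.continuous.comp continuous_fst))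
  have hF'm : Measurable (fun p : E × ℝ => (F' p.1 p.2).det) := by
    have hm1 : Measurable (fun p : E × ℝ => fderiv ℝ X p.1) :=
      (measurable_fderiv ℝ X).comp measurable_fst
    have hm2 : Measurable (fun p : E × ℝ => fderiv ℝ V p.1) :=
      (measurable_fderiv ℝ V).comp measurable_fst
    have hm3 : Measurable (fun p : E × ℝ => F' p.1 p.2) := hm1.add (measurable_snd.smul hm2)
    exact (ContinuousLinearMap.continuous_det (𝕜 := ℝ) (E := E)).measurable.comp hm3
  have hWm : MeasurableSet W := by
    refine (measurable_fst hDm).inter ((hcont.measurable hK'm).inter ?_)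
    exact hF'm (measurableSet_singleton 0).compl
  have hsec : ∀ t : ℝ, μ ((fun z => (z, t)) ⁻¹' W) = 0 := by
    intro t
    refine Pool.Agent.W769.Cons.null_of_null_image μ (f := fun z => X z + t • V z)
      (f' := fun z => F' z t) ?_ ?_ (fun x hx => hx.2.2)
    · rintro x ⟨hxD, -, -⟩
      have h1 := hxD.1.hasFDerivAt.add (hxD.2.hasFDerivAt.const_smul t)
      exact h1.hasFDerivWithinAt
    · refine measure_mono_null ?_ hK'0
      rintro _ ⟨x, ⟨-, hx, -⟩, rfl⟩
      exact hx
  have hW0 : (μ.prod volume) W = 0 := by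
    rw [Measure.prod_apply_symm hWm]
    simp [hsec]
  have hae : ∀ᵐ z ∂μ, volume (Prod.mk z ⁻¹' W) = 0 := by
    have := (Measure.measure_prod_null hWm).1 hW0
    filter_upwards [this] with z hz using hz
  set N := Dᶜ ∪ {z | ¬ volume (Prod.mk z ⁻¹' W) = 0} with hNdef
  have hN : μ N = 0 := measure_union_null hDae hae
  set R := {z | z ∈ D ∧ (fderiv ℝ V z).det = 0} with hR
  have hsub : {z | volume {t : ℝ | X z + t • V z ∈ K} ≠ 0} ⊆ N ∪ R := by
    intro z hz
    by_contra hcon
    simp only [hNdef, hR, mem_union, mem_compl_iff, mem_setOf_eq, not_or, not_not, not_and] at hcon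
    obtain ⟨⟨hzD, hz0⟩, hzR⟩ := hcon
    refine hz ?_
    have hfin := finite_det_pencil (fderiv ℝ X z) (fderiv ℝ V z) (hzR hzD)
    refine measure_mono_null (t := Prod.mk z ⁻¹' W ∪
      {t : ℝ | (fderiv ℝ X z + t • fderiv ℝ V z).det = 0}) ?_
      (measure_union_null hz0 (hfin.measure_zero volume))
    intro t ht
    by_cases h : (fderiv ℝ X z + t • fderiv ℝ V z).det = 0
    · exact Or.inr h
    · exact Or.inl ⟨hzD, hKK' ht, h⟩
  refine measure_mono_null (image_mono hsub) ?_
  rw [image_union]
  refine measure_union_null (null_lipschitz_image μ hV.lipschitzOnWith hN) ?_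
  exact addHaar_image_eq_zero_of_det_fderivWithin_eq_zero μ (f' := fun z => fderiv ℝ V z)
    (fun z hz => hz.1.2.hasFDerivAt.hasFDerivWithinAt) (fun z hz => hz.2)

end Pool.Agent.W6h19.Kk
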