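import Pool.Agent.W6h19.Kk.Param

set_option autoImplicit false

/-!
# Compression at every point, and rectifiable families of lines
-/

open MeasureTheory Set Metric Filter Topology Module Measure
open scoped NNReal ENNReal

namespace Pool.Agent.W6h19.Kk

section
variable {E : Type*} [NormedAddCommGroup E] [InnerProductSpace ℝ E] [FiniteDimensional ℝ E]
  [MeasurableSpace E] [BorelSpace E]

open scoped RealInnerProductSpace

/-- Near the point `x e + s₀ e` of the line number `e` there are lines of the family much nearer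
than their directions. -/
def Near (S : Set (sphere (0 : E) 1)) (x : sphere (0 : E) 1 → E) (e : sphere (0 : E) 1)
    (s₀ : ℝ) : Prop :=
  ∀ ε > 0, ∃ e' ∈ S, e' ≠ e ∧ ‖(e' : E) - e‖ < ε ∧
    ∃ s : ℝ, ‖(x e + s₀ • (e : E)) - (x e' + s • (e' : E))‖ < ε * ‖(e' : E) - e‖

/-- Lines of the family with almost the same direction as the line number `e` stay much further
away from the point `x e + s₀ e`. -/
def Far (S : Set (sphere (0 : E) 1)) (x : sphere (0 : E) 1 → E) (e : sphere (0 : E) 1)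
    (s₀ : ℝ) : Prop :=
  ∀ M > 0, ∃ e' ∈ S, e' ≠ e ∧ ‖(e' : E) - e‖ < 1 / M ∧
    ∀ s : ℝ, M * ‖(e' : E) - e‖ < ‖(x e + s₀ • (e : E)) - (x e' + s • (e' : E))‖

omit [FiniteDimensional ℝ E] [MeasurableSpace E] [BorelSpace E] in
theorem inner_ge {e c : E} (he : ‖e‖ = 1) (hc : ‖c‖ = 1) (h : ‖e - c‖ ≤ 1 / 2) :
    1 / 2 ≤ ⟪e, c⟫ := by
  have h1 := norm_sub_sq_unit he hc
  have h2 : ‖e - c‖ ^ 2 ≤ (1 / 2) ^ 2 := by gcongr
  nlinarith

omit [FiniteDimensional ℝ E] [MeasurableSpace E] [BorelSpace E] in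
theorem pt_eq (x : sphere (0 : E) 1 → E) (c : E) (q : ℝ) (e : sphere (0 : E) 1) (s₀ : ℝ)
    (h : ⟪(e : E), c⟫ ≠ 0) :
    pt x c q e = (x e + s₀ • (e : E)) +
      ((q - ⟪x e + s₀ • (e : E), c⟫) / ⟪(e : E), c⟫) • (e : E) := by
  rw [pt, add_assoc, ← add_smul]
  congr 2
  rw [inner_add_left, real_inner_smul_left]
  field_simp
  ring

theorem near_ae (μ : Measure E) [μ.IsAddHaarMeasure] {K : Set E} (hK : μ K = 0)
    (S : Set (sphere (0 : E) 1)) (x : sphere (0 : E) 1 → E)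
    (hpos : ∀ e ∈ S, volume {s : ℝ | x e + s • (e : E) ∈ K} ≠ 0) :
    μ.toSphere {e | e ∈ S ∧ ¬ ∀ s₀, Near S x e s₀} = 0 := by
  classical
  obtain ⟨D, hDc, hDd⟩ := TopologicalSpace.exists_countable_dense (sphere (0 : E) 1)
  have : Countable D := hDc.to_subtype
  set T : ℕ × D × ℚ → Set (sphere (0 : E) 1) := fun i =>
    {e | e ∈ S ∧ ‖(e : E) - i.2.1‖ < 1 / (2 * (i.1 + 1 : ℝ)) ∧
      ∀ e' ∈ S, e' ≠ e → ‖(e' : E) - e‖ < 1 / (i.1 + 1 : ℝ) → ∀ s : ℝ,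
        1 / (2 * (i.1 + 1 : ℝ)) * ‖(e' : E) - e‖ ≤
          ‖pt x (i.2.1 : E) (i.2.2 : ℝ) e - (x e' + s • (e' : E))‖} with hTdef
  have hTnull : ∀ i, μ.toSphere (T i) = 0 := by
    rintro ⟨m, c, q⟩
    have hc1 : ‖((c : sphere (0 : E) 1) : E)‖ = 1 := by simp
    have hm1 : (0 : ℝ) < (m : ℝ) + 1 := by positivity
    have hsmall : 1 / (2 * ((m : ℝ) + 1)) ≤ 1 / 2 := by
      rw [div_le_div_iff₀ (by positivity) (by norm_num)]
      nlinarith [(Nat.cast_nonneg m : (0 : ℝ) ≤ m)]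
    refine piece_a μ (x := x) (c := ((c : sphere (0 : E) 1) : E)) hc1 (q := (q : ℝ)) ?_
      (κ := 1 / (2 * ((m : ℝ) + 1))) (by positivity) ?_ hK (fun e he => hpos e he.1)
    · rintro e ⟨-, he, -⟩
      have := inner_ge (e := (e : E)) (by simp) hc1 (he.le.trans hsmall)
      intro h0
      rw [h0] at this
      norm_num at this
    · rintro e ⟨heS, hec, hef⟩ e' ⟨heS', hec', -⟩
      by_cases hee : e' = e
      · subst hee
        simp
      · have hd : ‖(e' : E) - e‖ < 1 / ((m : ℝ) + 1) := by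
          have h1 : ‖(e' : E) - e‖ ≤ ‖(e' : E) - c‖ + ‖(e : E) - c‖ := by
            have : (e' : E) - e = ((e' : E) - c) - ((e : E) - c) := by abel
            rw [this]; exact norm_sub_le _ _
          have h2 : 1 / (2 * ((m : ℝ) + 1)) + 1 / (2 * ((m : ℝ) + 1)) = 1 / ((m : ℝ) + 1) := by
            field_simp; norm_num
          simp only at hec hec'
          linarith
        have := hef e' heS' hee hd ((((q : ℝ) - ⟪x e', (c : E)⟫) / ⟪(e' : E), (c : E)⟫))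
        rw [norm_sub_rev (e : E) e']
        exact this
  refine measure_mono_null ?_ (measure_iUnion_null hTnull)
  rintro e ⟨heS, hfail⟩
  simp only [Near] at hfail
  push Not at hfail
  obtain ⟨s₀, ε, hε, hfail⟩ := hfail
  obtain ⟨m, hm⟩ := exists_nat_one_div_lt hε
  have hm1 : (0 : ℝ) < (m : ℝ) + 1 := by positivity
  set κ : ℝ := 1 / ((m : ℝ) + 1) with hκ
  have hκ0 : 0 < κ := by positivity
  have hκ1 : κ ≤ 1 := by
    rw [hκ, div_le_one hm1]
    linarith [(Nat.cast_nonneg m : (0 : ℝ) ≤ m)]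
  obtain ⟨c, hcD, hc⟩ := hDd.exists_dist_lt e (show 0 < κ / 2 by positivity)
  have hec : ‖(e : E) - c‖ < κ / 2 := by
    rw [← dist_eq_norm]; exact hc
  set y : E := x e + s₀ • (e : E) with hy
  obtain ⟨q, hq1, hq2⟩ := exists_rat_btwn (show ⟪y, (c : E)⟫ - κ / 4 < ⟪y, (c : E)⟫ + κ / 4 by
    linarith)
  have hin : 1 / 2 ≤ ⟪(e : E), (c : E)⟫ := inner_ge (by simp) (by simp) (by linarith)
  refine mem_iUnion.2 ⟨(m, ⟨c, hcD⟩, q), heS, ?_, ?_⟩
  · simp only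
    have : 1 / (2 * ((m : ℝ) + 1)) = κ / 2 := by rw [hκ]; field_simp
    rw [this]; exact hec
  · simp only
    intro e' he' hne hd s
    have h2 : 1 / (2 * ((m : ℝ) + 1)) = κ / 2 := by rw [hκ]; field_simp
    rw [h2, pt_eq x (c : E) q e s₀ (by linarith)]
    set σ : ℝ := ((q : ℝ) - ⟪x e + s₀ • (e : E), (c : E)⟫) / ⟪(e : E), (c : E)⟫ with hσ
    have hσ1 : |σ| ≤ κ / 2 := by
      rw [hσ, abs_div, div_le_iff₀ (abs_pos.2 (by linarith)), abs_of_pos (a := ⟪(e : E), (c : E)⟫)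
        (by linarith)]
      have : |(q : ℝ) - ⟪x e + s₀ • (e : E), (c : E)⟫| ≤ κ / 4 := by
        rw [abs_le]; constructor <;> linarith
      nlinarith
    have h3 := hfail e' he' hne (hd.trans hm) (s - σ)
    have h4 : x e + s₀ • (e : E) + σ • (e : E) - (x e' + s • (e' : E))
        = (x e + s₀ • (e : E) - (x e' + (s - σ) • (e' : E))) - σ • ((e' : E) - e) := by
      rw [sub_smul, smul_sub]; abel
    rw [h4]
    have h5 : ‖σ • ((e' : E) - e)‖ ≤ κ / 2 * ‖(e' : E) - e‖ := by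
      rw [norm_smul, Real.norm_eq_abs]; gcongr
    have h6 := norm_sub_norm_le (x e + s₀ • (e : E) - (x e' + (s - σ) • (e' : E)))
      (σ • ((e' : E) - e))
    have h7 : κ * ‖(e' : E) - e‖ ≤ ε * ‖(e' : E) - e‖ := by gcongr
    nlinarith [norm_nonneg ((e' : E) - e)]

theorem far_ae (μ : Measure E) [μ.IsAddHaarMeasure] {K : Set E} (hK : μ K = 0)
    (S : Set (sphere (0 : E) 1)) (x : sphere (0 : E) 1 → E)
    (hpos : ∀ e ∈ S, volume {s : ℝ | x e + s • (e : E) ∈ K} ≠ 0) :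
    μ.toSphere {e | e ∈ S ∧ ¬ ∀ s₀, Far S x e s₀} = 0 := by
  classical
  obtain ⟨D, hDc, hDd⟩ := TopologicalSpace.exists_countable_dense (sphere (0 : E) 1)
  have : Countable D := hDc.to_subtype
  set T : ℕ × D × ℚ → Set (sphere (0 : E) 1) := fun i =>
    {e | e ∈ S ∧ ‖(e : E) - i.2.1‖ < 1 / (2 * (i.1 + 1 : ℝ)) ∧
      ∀ e' ∈ S, e' ≠ e → ‖(e' : E) - e‖ < 1 / (i.1 + 1 : ℝ) → ∃ s : ℝ,
          ‖pt x (i.2.1 : E) (i.2.2 : ℝ) e - (x e' + s • (e' : E))‖ ≤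
          (i.1 + 2 : ℝ) * ‖(e' : E) - e‖} with hTdef
  have hTnull : ∀ i, μ.toSphere (T i) = 0 := by
    rintro ⟨m, c, q⟩
    have hc1 : ‖((c : sphere (0 : E) 1) : E)‖ = 1 := by simp
    have hm1 : (0 : ℝ) < (m : ℝ) + 1 := by positivity
    have hsmall : 1 / (2 * ((m : ℝ) + 1)) ≤ 1 / 2 := by
      rw [div_le_div_iff₀ (by positivity) (by norm_num)]
      nlinarith [(Nat.cast_nonneg m : (0 : ℝ) ≤ m)]
    refine piece_b μ (x := x) (c := ((c : sphere (0 : E) 1) : E)) (q := (q : ℝ))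
      (κ := 3 * ((m : ℝ) + 2)) (by positivity) ?_ hK (fun e he => hpos e he.1)
    rintro e ⟨heS, hec, hef⟩ e' ⟨heS', hec', -⟩
    by_cases hee : e' = e
    · subst hee
      simp
    · have hd : ‖(e' : E) - e‖ < 1 / ((m : ℝ) + 1) := by
        have h1 : ‖(e' : E) - e‖ ≤ ‖(e' : E) - c‖ + ‖(e : E) - c‖ := by
          have : (e' : E) - e = ((e' : E) - c) - ((e : E) - c) := by abel
          rw [this]; exact norm_sub_le _ _
        have h2 : 1 / (2 * ((m : ℝ) + 1)) + 1 / (2 * ((m : ℝ) + 1)) = 1 / ((m : ℝ) + 1) := by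
          field_simp; norm_num
        simp only at hec hec'
        linarith
      obtain ⟨s, hs⟩ := hef e' heS' hee hd
      have hin : 1 / 2 ≤ ⟪(e : E), (c : E)⟫ := inner_ge (by simp) hc1 (hec.le.trans hsmall)
      have hin' : 1 / 2 ≤ ⟪(e' : E), (c : E)⟫ := inner_ge (by simp) hc1 (hec'.le.trans hsmall)
      set w : E := x e' + s • (e' : E) with hw
      have h3 := pt_eq x (c : E) (q : ℝ) e' s (by linarith)
      rw [← hw] at h3
      set κ' : ℝ := ((q : ℝ) - ⟪w, (c : E)⟫) / ⟪(e' : E), (c : E)⟫ with hκ'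
      have hκ'1 : |κ'| ≤ 2 * ‖pt x (c : E) (q : ℝ) e - w‖ := by
        rw [hκ', abs_div, div_le_iff₀ (abs_pos.2 (by linarith)),
          abs_of_pos (a := ⟪(e' : E), (c : E)⟫) (by linarith)]
        have h4 : (q : ℝ) - ⟪w, (c : E)⟫ = ⟪pt x (c : E) (q : ℝ) e - w, (c : E)⟫ := by
          rw [inner_sub_left, inner_pt (by linarith)]
        have h5 : |(q : ℝ) - ⟪w, (c : E)⟫| ≤ ‖pt x (c : E) (q : ℝ) e - w‖ := by
          rw [h4]
          have := abs_real_inner_le_norm (pt x (c : E) (q : ℝ) e - w) (c : E)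
          rwa [hc1, mul_one] at this
        nlinarith [norm_nonneg (pt x (c : E) (q : ℝ) e - w)]
      have h6 : pt x (c : E) (q : ℝ) e - pt x (c : E) (q : ℝ) e'
          = (pt x (c : E) (q : ℝ) e - w) - κ' • (e' : E) := by
        rw [h3]; abel
      have he1 : ‖(e' : E)‖ = 1 := by simp
      change ‖pt x (c : E) (q : ℝ) e - pt x (c : E) (q : ℝ) e'‖ ≤ _
      rw [h6]
      have hs' : ‖pt x (c : E) (q : ℝ) e - w‖ ≤ ((m : ℝ) + 2) * ‖(e' : E) - e‖ := hs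
      calc ‖(pt x (c : E) (q : ℝ) e - w) - κ' • (e' : E)‖
          ≤ ‖pt x (c : E) (q : ℝ) e - w‖ + ‖κ' • (e' : E)‖ := norm_sub_le _ _
        _ = ‖pt x (c : E) (q : ℝ) e - w‖ + |κ'| := by
          rw [norm_smul, he1, mul_one, Real.norm_eq_abs]
        _ ≤ ‖pt x (c : E) (q : ℝ) e - w‖ + 2 * ‖pt x (c : E) (q : ℝ) e - w‖ := by gcongr
        _ = 3 * ‖pt x (c : E) (q : ℝ) e - w‖ := by ring
        _ ≤ 3 * (((m : ℝ) + 2) * ‖(e' : E) - e‖) := by gcongr
        _ = 3 * ((m : ℝ) + 2) * ‖(e : E) - e'‖ := by rw [norm_sub_rev]; ring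
  refine measure_mono_null ?_ (measure_iUnion_null hTnull)
  rintro e ⟨heS, hfail⟩
  simp only [Far] at hfail
  push Not at hfail
  obtain ⟨s₀, M, hM, hfail⟩ := hfail
  obtain ⟨m, hm⟩ := exists_nat_gt M
  have hm1 : (0 : ℝ) < (m : ℝ) + 1 := by positivity
  obtain ⟨c, hcD, hc⟩ := hDd.exists_dist_lt e (show 0 < 1 / (2 * ((m : ℝ) + 1)) by positivity)
  have hec : ‖(e : E) - c‖ < 1 / (2 * ((m : ℝ) + 1)) := by
    rw [← dist_eq_norm]; exact hc
  have hsmall : 1 / (2 * ((m : ℝ) + 1)) ≤ 1 / 2 := by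
    rw [div_le_div_iff₀ (by positivity) (by norm_num)]
    nlinarith [(Nat.cast_nonneg m : (0 : ℝ) ≤ m)]
  set y : E := x e + s₀ • (e : E) with hy
  obtain ⟨q, hq1, hq2⟩ := exists_rat_btwn (show ⟪y, (c : E)⟫ - 1 / 2 < ⟪y, (c : E)⟫ + 1 / 2 by
    linarith)
  have hin : 1 / 2 ≤ ⟪(e : E), (c : E)⟫ := inner_ge (by simp) (by simp) (by linarith)
  refine mem_iUnion.2 ⟨(m, ⟨c, hcD⟩, q), heS, hec, ?_⟩
  simp only
  intro e' he' hne hd
  rw [pt_eq x (c : E) q e s₀ (by linarith)]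
  set σ : ℝ := ((q : ℝ) - ⟪x e + s₀ • (e : E), (c : E)⟫) / ⟪(e : E), (c : E)⟫ with hσ
  have hσ1 : |σ| ≤ 1 := by
    rw [hσ, abs_div, div_le_iff₀ (abs_pos.2 (by linarith)), abs_of_pos (a := ⟪(e : E), (c : E)⟫)
      (by linarith)]
    have : |(q : ℝ) - ⟪x e + s₀ • (e : E), (c : E)⟫| ≤ 1 / 2 := by
      rw [abs_le]; constructor <;> linarith
    nlinarith
  have hd' : ‖(e' : E) - e‖ < 1 / M := by
    refine hd.trans ?_
    rw [div_lt_div_iff₀ hm1 hM]
    linarith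
  obtain ⟨s, hs⟩ := hfail e' he' hne hd'
  refine ⟨s + σ, ?_⟩
  have h4 : x e + s₀ • (e : E) + σ • (e : E) - (x e' + (s + σ) • (e' : E))
      = (x e + s₀ • (e : E) - (x e' + s • (e' : E))) - σ • ((e' : E) - e) := by
    rw [add_smul, smul_sub]; abel
  rw [h4]
  have h5 : ‖σ • ((e' : E) - e)‖ ≤ 1 * ‖(e' : E) - e‖ := by
    rw [norm_smul, Real.norm_eq_abs]; gcongr
  have h6 := norm_sub_le (x e + s₀ • (e : E) - (x e' + s • (e' : E))) (σ • ((e' : E) - e))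
  have h7 : M * ‖(e' : E) - e‖ ≤ m * ‖(e' : E) - e‖ := by gcongr
  nlinarith [norm_nonneg ((e' : E) - e)]

end

end Pool.Agent.W6h19.Kk
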