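import Pool.Agent.W6h19.Kk.Cone

set_option autoImplicit false

/-!
# Families of lines which are Lipschitz in some parameter
-/

open MeasureTheory Set Metric Filter Topology Module Measure
open scoped NNReal ENNReal

namespace Pool.Agent.W6h19.Kk

section
variable {E : Type*} [NormedAddCommGroup E] [NormedSpace ℝ E] [FiniteDimensional ℝ E]
  [MeasurableSpace E] [BorelSpace E]

omit [MeasurableSpace E] [BorelSpace E] in
theorem exists_ext {ι : Type*} (Z F : ι → E) (L : ℝ)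
    (hF : ∀ i j, ‖F i - F j‖ ≤ L * ‖Z i - Z j‖) :
    ∃ (k : ℝ≥0) (G : E → E), LipschitzWith k G ∧ ∀ i, G (Z i) = F i := by
  classical
  rcases isEmpty_or_nonempty ι with hι | hι
  · exact ⟨0, fun _ => 0, LipschitzWith.const 0, fun i => (hι.false i).elim⟩
  have hch : ∀ z ∈ range Z, ∃ i, Z i = z := fun z hz => hz
  choose! f hf using hch
  have hL : LipschitzOnWith (Real.toNNReal L) (fun z => F (f z)) (range Z) := by
    refine LipschitzOnWith.of_dist_le_mul ?_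
    intro z hz w hw
    rw [dist_eq_norm, dist_eq_norm]
    have h1 := hF (f z) (f w)
    rw [hf z hz, hf w hw] at h1
    refine h1.trans ?_
    gcongr
    exact Real.le_coe_toNNReal L
  obtain ⟨G, hG, hGe⟩ := hL.extend_finite_dimension
  refine ⟨_, G, hG, fun i => ?_⟩
  rw [← hGe (mem_range_self i)]
  simp only
  have h1 := hF (f (Z i)) i
  rw [hf (Z i) (mem_range_self i), sub_self, norm_zero, mul_zero] at h1
  exact sub_eq_zero.1 (norm_le_zero_iff.1 h1)

/-- A family of lines `X i + ℝ V i` which is Lipschitz with respect to the parameter `Z i ∈ E`: if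
all of them meet the null set `K` in positive length, then the set of the vectors `V i` is null. -/
theorem null_param (μ : Measure E) [μ.IsAddHaarMeasure] {ι : Type*} (Z V X : ι → E) (L : ℝ)
    (hV : ∀ i j, ‖V i - V j‖ ≤ L * ‖Z i - Z j‖) (hX : ∀ i j, ‖X i - X j‖ ≤ L * ‖Z i - Z j‖)
    {K : Set E} (hK : μ K = 0) (hpos : ∀ i, volume {t : ℝ | X i + t • V i ∈ K} ≠ 0) :
    μ (range V) = 0 := by
  obtain ⟨kV, V', hV', hVe⟩ := exists_ext Z V L hV
  obtain ⟨kX, X', hX', hXe⟩ := exists_ext Z X L hX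
  refine measure_mono_null ?_ (null_lines μ hX' hV' hK)
  rintro _ ⟨i, rfl⟩
  refine ⟨Z i, ?_, hVe i⟩
  simp only [mem_setOf_eq]
  rw [hVe i, hXe i]
  exact hpos i

omit [FiniteDimensional ℝ E] [MeasurableSpace E] [BorelSpace E] in
theorem length_ne_zero {a e : E} {K : Set E} (h : volume {s : ℝ | a + s • e ∈ K} ≠ 0) (σ ρ : ℝ)
    (hρ : ρ ≠ 0) : volume {t : ℝ | (a + σ • e) + t • (ρ • e) ∈ K} ≠ 0 := by
  have h1 : {t : ℝ | (a + σ • e) + t • (ρ • e) ∈ K}
      = (fun t => ρ * t) ⁻¹' ((fun t => σ + t) ⁻¹' {s : ℝ | a + s • e ∈ K}) := by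
    ext t
    simp only [mem_setOf_eq, mem_preimage]
    have : a + σ • e + t • ρ • e = a + (σ + ρ * t) • e := by
      rw [add_smul, smul_smul, mul_comm ρ t]
      abel
    rw [this]
  rw [h1, Real.volume_preimage_mul_left hρ, measure_preimage_add]
  refine mul_ne_zero ?_ h
  rw [Ne, ENNReal.ofReal_eq_zero, not_le, abs_pos]
  exact inv_ne_zero hρ

end

section
variable {E : Type*} [NormedAddCommGroup E] [InnerProductSpace ℝ E] [FiniteDimensional ℝ E]
  [MeasurableSpace E] [BorelSpace E]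

open scoped RealInnerProductSpace

omit [FiniteDimensional ℝ E] [MeasurableSpace E] [BorelSpace E] in
theorem norm_sub_sq_unit {e e' : E} (he : ‖e‖ = 1) (he' : ‖e'‖ = 1) :
    ‖e - e'‖ ^ 2 = 2 - 2 * ⟪e, e'⟫ := by
  rw [norm_sub_sq_real, he, he']
  ring

omit [FiniteDimensional ℝ E] [MeasurableSpace E] [BorelSpace E] in
theorem norm_sub_le_cone {e e' : E} (he : ‖e‖ = 1) (he' : ‖e'‖ = 1) {ρ ρ' : ℝ} (hρ : 1 ≤ ρ)
    (hρ' : 1 ≤ ρ') : ‖e - e'‖ ≤ ‖ρ • e - ρ' • e'‖ := by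
  refine le_of_sq_le_sq ?_ (norm_nonneg _)
  rw [norm_sub_sq_unit he he', norm_sub_sq_real, norm_smul, norm_smul, he, he', real_inner_smul_left,
    real_inner_smul_right, Real.norm_of_nonneg (by linarith), Real.norm_of_nonneg (by linarith)]
  have h1 : ⟪e, e'⟫ ≤ 1 := by
    have := real_inner_le_norm e e'
    rwa [he, he', one_mul] at this
  have h2 : 1 ≤ ρ * ρ' := by nlinarith
  nlinarith [sq_nonneg (ρ - ρ'), mul_nonneg (sub_nonneg.2 h2) (sub_nonneg.2 h1)]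

/-- The point of the line `x e + ℝ e` in the hyperplane `⟪·, c⟫ = q`. -/
noncomputable def pt (x : sphere (0 : E) 1 → E) (c : E) (q : ℝ) (e : sphere (0 : E) 1) : E :=
  x e + ((q - ⟪x e, c⟫) / ⟪(e : E), c⟫) • (e : E)

omit [FiniteDimensional ℝ E] [MeasurableSpace E] [BorelSpace E] in
theorem inner_pt {x : sphere (0 : E) 1 → E} {c : E} {q : ℝ} {e : sphere (0 : E) 1}
    (h : ⟪(e : E), c⟫ ≠ 0) : ⟪pt x c q e, c⟫ = q := by
  rw [pt, inner_add_left, real_inner_smul_left]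
  field_simp
  ring

/-- First kind of pieces: the direction is a Lipschitz function of the point in a hyperplane. -/
theorem piece_a (μ : Measure E) [μ.IsAddHaarMeasure] {x : sphere (0 : E) 1 → E} {c : E}
    (hc : ‖c‖ = 1) {q : ℝ} {T : Set (sphere (0 : E) 1)} (hT : ∀ e ∈ T, ⟪(e : E), c⟫ ≠ 0)
    {κ : ℝ} (hκ : 0 < κ)
    (hsep : ∀ e ∈ T, ∀ e' ∈ T, κ * ‖(e : E) - e'‖ ≤ ‖pt x c q e - pt x c q e'‖)
    {K : Set E} (hK : μ K = 0) (hpos : ∀ e ∈ T, volume {s : ℝ | x e + s • (e : E) ∈ K} ≠ 0) :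
    μ.toSphere T = 0 := by
  refine sphere_null_of_cone μ T ?_
  set ι := T × Ioo (1 : ℝ) 2
  have key := null_param μ (ι := T × Ioo (1 : ℝ) 2)
    (fun i => pt x c q i.1 + (i.2 : ℝ) • c) (fun i => (i.2 : ℝ) • ((i.1 : sphere (0 : E) 1) : E))
    (fun i => pt x c q i.1) (2 / κ + 1) ?_ ?_ hK ?_
  · refine measure_mono_null ?_ key
    rintro z ⟨e, he, r, h1, h2, rfl⟩
    exact ⟨(⟨e, he⟩, ⟨r, h1, h2⟩), rfl⟩
  · rintro ⟨⟨e, he⟩, ⟨r, hr1, hr2⟩⟩ ⟨⟨e', he'⟩, ⟨r', hr1', hr2'⟩⟩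
    simp only
    have horth : ⟪pt x c q e - pt x c q e', c⟫ = 0 := by
      rw [inner_sub_left, inner_pt (hT e he), inner_pt (hT e' he'), sub_self]
    have hdiff : pt x c q e + r • c - (pt x c q e' + r' • c)
        = (pt x c q e - pt x c q e') + (r - r') • c := by
      rw [sub_smul]; abel
    rw [hdiff]
    set P := pt x c q e - pt x c q e' with hP
    have hsq : ‖P + (r - r') • c‖ ^ 2 = ‖P‖ ^ 2 + (r - r') ^ 2 := by
      rw [norm_add_sq_real, real_inner_smul_right, horth, norm_smul, hc, mul_one,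
        Real.norm_eq_abs, sq_abs]
      ring
    have h1 : ‖P‖ ≤ ‖P + (r - r') • c‖ := by
      refine le_of_sq_le_sq ?_ (norm_nonneg _)
      rw [hsq]; nlinarith [sq_nonneg (r - r')]
    have h2 : |r - r'| ≤ ‖P + (r - r') • c‖ := by
      refine abs_le_of_sq_le_sq ?_ (norm_nonneg _)
      rw [hsq]; nlinarith [sq_nonneg ‖P‖]
    have h3 : ‖(e : E) - e'‖ ≤ ‖P‖ / κ := by
      rw [le_div_iff₀ hκ, mul_comm]
      exact hsep e he e' he'
    have he1 : ‖(e' : E)‖ = 1 := by simp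
    have h4 : r • (e : E) - r' • (e' : E) = r • ((e : E) - e') + (r - r') • (e' : E) := by
      rw [smul_sub, sub_smul]; abel
    rw [h4]
    calc ‖r • ((e : E) - e') + (r - r') • (e' : E)‖
        ≤ ‖r • ((e : E) - e')‖ + ‖(r - r') • (e' : E)‖ := norm_add_le _ _
      _ = r * ‖(e : E) - e'‖ + |r - r'| := by
        rw [norm_smul, norm_smul, he1, mul_one, Real.norm_of_nonneg (by linarith),
          Real.norm_eq_abs]
      _ ≤ 2 * (‖P‖ / κ) + |r - r'| := by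
        gcongr
      _ ≤ 2 * (‖P + (r - r') • c‖ / κ) + ‖P + (r - r') • c‖ := by gcongr
      _ = (2 / κ + 1) * ‖P + (r - r') • c‖ := by ring
  · rintro ⟨⟨e, he⟩, ⟨r, hr1, hr2⟩⟩ ⟨⟨e', he'⟩, ⟨r', hr1', hr2'⟩⟩
    simp only
    have horth : ⟪pt x c q e - pt x c q e', c⟫ = 0 := by
      rw [inner_sub_left, inner_pt (hT e he), inner_pt (hT e' he'), sub_self]
    have hdiff : pt x c q e + r • c - (pt x c q e' + r' • c)
        = (pt x c q e - pt x c q e') + (r - r') • c := by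
      rw [sub_smul]; abel
    rw [hdiff]
    set P := pt x c q e - pt x c q e' with hP
    have hsq : ‖P + (r - r') • c‖ ^ 2 = ‖P‖ ^ 2 + (r - r') ^ 2 := by
      rw [norm_add_sq_real, real_inner_smul_right, horth, norm_smul, hc, mul_one,
        Real.norm_eq_abs, sq_abs]
      ring
    have h1 : ‖P‖ ≤ ‖P + (r - r') • c‖ := by
      refine le_of_sq_le_sq ?_ (norm_nonneg _)
      rw [hsq]; nlinarith [sq_nonneg (r - r')]
    have h5 : 0 ≤ 2 / κ * ‖P + (r - r') • c‖ := by positivity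
    linarith [h1, h5, (by ring : (2 / κ + 1) * ‖P + (r - r') • c‖
      = 2 / κ * ‖P + (r - r') • c‖ + ‖P + (r - r') • c‖)]
  · rintro ⟨⟨e, he⟩, ⟨r, hr1, hr2⟩⟩
    exact length_ne_zero (hpos e he) _ r (by linarith)

/-- Second kind of pieces: the point in a hyperplane is a Lipschitz function of the direction. -/
theorem piece_b (μ : Measure E) [μ.IsAddHaarMeasure] {x : sphere (0 : E) 1 → E} {c : E}
    {q : ℝ} {T : Set (sphere (0 : E) 1)} {κ : ℝ} (hκ : 0 ≤ κ)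
    (hlip : ∀ e ∈ T, ∀ e' ∈ T, ‖pt x c q e - pt x c q e'‖ ≤ κ * ‖(e : E) - e'‖)
    {K : Set E} (hK : μ K = 0) (hpos : ∀ e ∈ T, volume {s : ℝ | x e + s • (e : E) ∈ K} ≠ 0) :
    μ.toSphere T = 0 := by
  refine sphere_null_of_cone μ T ?_
  have key := null_param μ (ι := T × Ioo (1 : ℝ) 2)
    (fun i => (i.2 : ℝ) • ((i.1 : sphere (0 : E) 1) : E))
    (fun i => (i.2 : ℝ) • ((i.1 : sphere (0 : E) 1) : E))
    (fun i => pt x c q i.1) (κ + 1) ?_ ?_ hK ?_
  · refine measure_mono_null ?_ key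
    rintro z ⟨e, he, r, h1, h2, rfl⟩
    exact ⟨(⟨e, he⟩, ⟨r, h1, h2⟩), rfl⟩
  · intro i j
    have : 0 ≤ κ * ‖(i.2 : ℝ) • ((i.1 : sphere (0 : E) 1) : E)
      - (j.2 : ℝ) • ((j.1 : sphere (0 : E) 1) : E)‖ := by positivity
    linarith
  · rintro ⟨⟨e, he⟩, ⟨r, hr1, hr2⟩⟩ ⟨⟨e', he'⟩, ⟨r', hr1', hr2'⟩⟩
    simp only
    have he0 : ‖(e : E)‖ = 1 := by simp
    have he1 : ‖(e' : E)‖ = 1 := by simp
    have h1 := norm_sub_le_cone he0 he1 hr1.le hr1'.le
    calc ‖pt x c q e - pt x c q e'‖ ≤ κ * ‖(e : E) - e'‖ := hlip e he e' he'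
      _ ≤ κ * ‖r • (e : E) - r' • (e' : E)‖ := by gcongr
      _ ≤ (κ + 1) * ‖r • (e : E) - r' • (e' : E)‖ := by gcongr; linarith
  · rintro ⟨⟨e, he⟩, ⟨r, hr1, hr2⟩⟩
    exact length_ne_zero (hpos e he) _ r (by linarith)

end

end Pool.Agent.W6h19.Kk
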