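import Pool.Agent.W6h19.Kk.Main

set_option autoImplicit false

/-!
# Rectifiable families of lines
-/

open MeasureTheory Set Metric Filter Topology Module Measure
open scoped NNReal ENNReal

namespace Pool.Agent.W6h19.Kk

/-- Euclidean space. -/
abbrev Ec (n : ℕ) : Type := EuclideanSpace ℝ (Fin n)

/-- Add a first coordinate. -/
noncomputable def consPt {m : ℕ} (r : ℝ) (w : Ec m) : Ec (m + 1) :=
  WithLp.toLp 2 (Fin.cons r (WithLp.ofLp w))

theorem norm_consPt_sub_sq {m : ℕ} (r r' : ℝ) (w w' : Ec m) :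
    ‖consPt r w - consPt r' w'‖ ^ 2 = (r - r') ^ 2 + ‖w - w'‖ ^ 2 := by
  rw [EuclideanSpace.norm_sq_eq, EuclideanSpace.norm_sq_eq, Fin.sum_univ_succ]
  simp [consPt]

theorem abs_le_consPt {m : ℕ} (r r' : ℝ) (w w' : Ec m) :
    |r - r'| ≤ ‖consPt r w - consPt r' w'‖ := by
  refine abs_le_of_sq_le_sq ?_ (norm_nonneg _)
  rw [norm_consPt_sub_sq]
  nlinarith [sq_nonneg ‖w - w'‖]

theorem norm_le_consPt {m : ℕ} (r r' : ℝ) (w w' : Ec m) :
    ‖w - w'‖ ≤ ‖consPt r w - consPt r' w'‖ := by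
  refine le_of_sq_le_sq ?_ (norm_nonneg _)
  rw [norm_consPt_sub_sq]
  nlinarith [sq_nonneg (r - r')]

/-- One Lipschitz piece of a family of lines. -/
theorem rect_piece {m : ℕ} {K : Set (Ec (m + 1))} (hK : volume K = 0) {Z : Set (Ec m)}
    {f : Ec m → sphere (0 : Ec (m + 1)) 1 × Ec (m + 1)} {k : ℝ≥0} (hf : LipschitzOnWith k f Z) :
    (volume : Measure (Ec (m + 1))).toSphere {e | ∃ w ∈ Z, (f w).1 = e ∧
      volume {s : ℝ | (f w).2 + s • (e : Ec (m + 1)) ∈ K} ≠ 0} = 0 := by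
  refine sphere_null_of_cone volume _ ?_
  set P : Set (Ec m) := {w | w ∈ Z ∧
    volume {s : ℝ | (f w).2 + s • ((f w).1 : Ec (m + 1)) ∈ K} ≠ 0} with hP
  have hfst : ∀ w ∈ Z, ∀ w' ∈ Z, ‖((f w).1 : Ec (m + 1)) - (f w').1‖ ≤ k * ‖w - w'‖ := by
    intro w hw w' hw'
    have h1 := hf.dist_le_mul w hw w' hw'
    rw [dist_eq_norm] at h1
    refine le_trans ?_ h1
    rw [← dist_eq_norm, ← Subtype.dist_eq, Prod.dist_eq]
    exact le_max_left _ _
  have hsnd : ∀ w ∈ Z, ∀ w' ∈ Z, ‖(f w).2 - (f w').2‖ ≤ k * ‖w - w'‖ := by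
    intro w hw w' hw'
    have h1 := hf.dist_le_mul w hw w' hw'
    rw [dist_eq_norm w w'] at h1
    refine le_trans ?_ h1
    rw [← dist_eq_norm, Prod.dist_eq]
    exact le_max_right _ _
  have key := null_param (volume : Measure (Ec (m + 1))) (ι := P × Ioo (1 : ℝ) 2)
    (fun i => consPt (i.2 : ℝ) (i.1 : Ec m)) (fun i => (i.2 : ℝ) • ((f i.1).1 : Ec (m + 1)))
    (fun i => (f i.1).2) (2 * k + 1) ?_ ?_ hK ?_
  · refine measure_mono_null ?_ key
    rintro z ⟨e, ⟨w, hw, rfl, hpos⟩, r, h1, h2, rfl⟩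
    exact ⟨(⟨w, hw, hpos⟩, ⟨r, h1, h2⟩), rfl⟩
  · rintro ⟨⟨w, hw, hwp⟩, ⟨r, hr1, hr2⟩⟩ ⟨⟨w', hw', hwp'⟩, ⟨r', hr1', hr2'⟩⟩
    simp only
    have he1 : ‖((f w').1 : Ec (m + 1))‖ = 1 := by simp
    have h4 : r • ((f w).1 : Ec (m + 1)) - r' • ((f w').1 : Ec (m + 1))
        = r • (((f w).1 : Ec (m + 1)) - (f w').1) + (r - r') • ((f w').1 : Ec (m + 1)) := by
      rw [smul_sub, sub_smul]; abel
    rw [h4]
    have h5 := norm_le_consPt r r' w w'
    have h6 := abs_le_consPt r r' w w'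
    set N := ‖consPt r w - consPt r' w'‖
    calc ‖r • (((f w).1 : Ec (m + 1)) - (f w').1) + (r - r') • ((f w').1 : Ec (m + 1))‖
        ≤ ‖r • (((f w).1 : Ec (m + 1)) - (f w').1)‖ + ‖(r - r') • ((f w').1 : Ec (m + 1))‖ :=
          norm_add_le _ _
      _ = r * ‖((f w).1 : Ec (m + 1)) - (f w').1‖ + |r - r'| := by
        rw [norm_smul, norm_smul, he1, mul_one, Real.norm_of_nonneg (by linarith),
          Real.norm_eq_abs]
      _ ≤ 2 * (k * ‖w - w'‖) + |r - r'| := by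
        have := hfst w hw w' hw'
        gcongr
      _ ≤ 2 * (k * N) + N := by gcongr
      _ = (2 * k + 1) * N := by ring
  · rintro ⟨⟨w, hw, hwp⟩, ⟨r, hr1, hr2⟩⟩ ⟨⟨w', hw', hwp'⟩, ⟨r', hr1', hr2'⟩⟩
    simp only
    have h5 := norm_le_consPt r r' w w'
    set N := ‖consPt r w - consPt r' w'‖
    have hN : 0 ≤ N := norm_nonneg _
    calc ‖(f w).2 - (f w').2‖ ≤ k * ‖w - w'‖ := hsnd w hw w' hw'
      _ ≤ k * N := by gcongr
      _ ≤ (2 * k + 1) * N := by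
        have : (0 : ℝ) ≤ k := k.2
        nlinarith [mul_nonneg this hN]
  · rintro ⟨⟨w, hw, hwp⟩, ⟨r, hr1, hr2⟩⟩
    have := length_ne_zero hwp 0 r (by linarith)
    simpa using this

end Pool.Agent.W6h19.Kk
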